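import Mathlib

open Set Metric Complex ComplexConjugate Filter Topology Finset

namespace Pool.Agent.H.MP_8fe0b8_an

/-- Taylor expansions with holomorphic remainder on the unit disk. -/
def Cf (F : ℂ → ℂ) (c : ℕ → ℂ) : Prop :=
  ∀ N, ∃ R, DifferentiableOn ℂ R (ball 0 1) ∧
    ∀ z ∈ ball (0 : ℂ) 1, F z = ∑ j ∈ range N, c j * z ^ j + z ^ N * R z

lemma cf_of_series (N : ℕ) : ∀ {F : ℂ → ℂ} {p : FormalMultilinearSeries ℂ ℂ ℂ},
    DifferentiableOn ℂ F (ball 0 1) → HasFPowerSeriesAt F p 0 →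
    ∃ R, DifferentiableOn ℂ R (ball 0 1) ∧
      ∀ z ∈ ball (0 : ℂ) 1, F z = ∑ j ∈ range N, p.coeff j * z ^ j + z ^ N * R z := by
  induction N with
  | zero => intro F p hF _; exact ⟨F, hF, fun z _ => by simp⟩
  | succ N ih =>
    intro F p hF hp
    obtain ⟨R, hR, e⟩ := ih ((differentiableOn_dslope (ball_mem_nhds 0 one_pos)).2 hF)
      hp.has_fpower_series_dslope_fslope
    refine ⟨R, hR, fun z hz => ?_⟩
    have h0 : p.coeff 0 = F 0 := hp.coeff_zero 1
    have h1 := sub_smul_dslope F 0 z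
    rw [e z hz, sub_zero, smul_eq_mul] at h1
    rw [sum_range_succ', h0, ← sub_add_cancel (F z) (F 0), ← h1, mul_add, mul_sum]
    simp only [FormalMultilinearSeries.coeff_fslope]
    have : ∀ j ∈ range N, z * (p.coeff (j + 1) * z ^ j) = p.coeff (j + 1) * z ^ (j + 1) :=
      fun j _ => by ring
    rw [sum_congr rfl this]; ring

lemma Cf.diff {F : ℂ → ℂ} {c : ℕ → ℂ} (h : Cf F c) : DifferentiableOn ℂ F (ball 0 1) := by
  obtain ⟨R, hR, e⟩ := h 0
  exact hR.congr fun z hz => by simp [e z hz]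

lemma Cf.deriv {F : ℂ → ℂ} {c : ℕ → ℂ} (h : Cf F c) :
    Cf (deriv F) (fun n => (n + 1) * c (n + 1)) := by
  intro N
  obtain ⟨R, hR, e⟩ := h (N + 1)
  refine ⟨fun z => (N + 1) * R z + z * _root_.deriv R z, ?_, fun z hz => ?_⟩
  · exact (hR.const_mul _).add (differentiableOn_id.mul (hR.deriv isOpen_ball))
  · have e' : F =ᶠ[𝓝 z] fun z => ∑ j ∈ range (N + 1), c j * z ^ j + z ^ (N + 1) * R z := by
      filter_upwards [isOpen_ball.mem_nhds hz] with w hw using e w hw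
    have h1 : HasDerivAt (fun z => ∑ j ∈ range (N + 1), c j * z ^ j)
        (∑ j ∈ range (N + 1), c j * (j * z ^ (j - 1))) z :=
      HasDerivAt.fun_sum fun j _ => (hasDerivAt_pow j z).const_mul _
    have h2 := (hasDerivAt_pow (N + 1) z).mul
      (hR.differentiableAt (isOpen_ball.mem_nhds hz)).hasDerivAt
    rw [((h1.add h2).congr_of_eventuallyEq e').deriv, sum_range_succ']
    simp only [Nat.add_sub_cancel, Nat.cast_add, Nat.cast_one, Nat.cast_zero, zero_mul, mul_zero,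
      add_zero]
    have : ∀ j ∈ range N, c (j + 1) * (((j : ℂ) + 1) * z ^ j) = (j + 1) * c (j + 1) * z ^ j :=
      fun j _ => by ring
    rw [sum_congr rfl this]; ring

lemma sph {ρ : ℝ} (h0 : 0 < ρ) (h1 : ρ < 1) : sphere (0 : ℂ) |ρ| ⊆ ball 0 1 := by
  rw [abs_of_pos h0]; exact sphere_subset_ball h1

lemma ci {E : Type*} [NormedAddCommGroup E] {f : ℂ → E} {ρ : ℝ} (h0 : 0 < ρ) (h1 : ρ < 1)
    (hf : ContinuousOn f (ball 0 1)) : CircleIntegrable f 0 ρ :=
  (hf.mono (sphere_subset_ball h1)).circleIntegrable h0.le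

lemma avg0 {H : ℂ → ℂ} (hH : DifferentiableOn ℂ H (ball 0 1)) {ρ : ℝ} (h0 : 0 < ρ) (h1 : ρ < 1) :
    Real.circleAverage H 0 ρ = H 0 := by
  refine DiffContOnCl.circleAverage (DifferentiableOn.diffContOnCl (hH.mono ?_))
  rw [abs_of_pos h0, closure_ball _ h0.ne']
  exact closedBall_subset_ball h1

lemma zc {ρ : ℝ} (h0 : 0 < ρ) {z : ℂ} (hz : z ∈ sphere (0 : ℂ) |ρ|) : z * conj z = (ρ : ℂ) ^ 2 := by
  rw [mul_conj, normSq_eq_norm_sq, mem_sphere_zero_iff_norm.1 hz, abs_of_pos h0]; push_cast; ring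

lemma avg_hi {H : ℂ → ℂ} (hH : DifferentiableOn ℂ H (ball 0 1)) {ρ : ℝ} (h0 : 0 < ρ) (h1 : ρ < 1)
    (n : ℕ) : Real.circleAverage (fun z => z ^ n * H z * conj z ^ n) 0 ρ = H 0 * ρ ^ (2 * n) := by
  rw [Real.circleAverage_congr_sphere (f₂ := fun z => H z * ρ ^ (2 * n)) fun z hz => ?_,
    avg0 (hH.mul_const _) h0 h1]
  simp only [pow_mul, ← zc h0 hz]; ring

lemma avg_lo {ρ : ℝ} (h0 : 0 < ρ) (h1 : ρ < 1) (a : ℂ) {j n : ℕ} (h : j < n) :
    Real.circleAverage (fun z => a * z ^ j * conj z ^ n) 0 ρ = 0 := by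
  obtain ⟨m, rfl⟩ := Nat.exists_eq_add_of_lt h
  have e := (conjCLE : ℂ →L[ℝ] ℂ).circleAverage_comp_comm
    (f := fun z => z ^ j * (conj a * z ^ (m + 1)) * conj z ^ j) (c := 0)
    (ci h0 h1 (by fun_prop))
  rw [avg_hi (H := fun z => conj a * z ^ (m + 1)) (by fun_prop) h0 h1] at e
  simp only [ne_eq, Nat.add_eq_zero_iff, one_ne_zero, and_false, not_false_eq_true, zero_pow,
    mul_zero, zero_mul, map_zero] at e
  rw [← e]
  congr 1; funext z
  simp; ring

lemma avg_coef {F : ℂ → ℂ} {c : ℕ → ℂ} {N : ℕ} {R : ℂ → ℂ} (hR : DifferentiableOn ℂ R (ball 0 1))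
    (e : ∀ z ∈ ball (0 : ℂ) 1, F z = ∑ j ∈ range N, c j * z ^ j + z ^ N * R z)
    {ρ : ℝ} (h0 : 0 < ρ) (h1 : ρ < 1) {n : ℕ} (hn : n < N) :
    Real.circleAverage (fun z => F z * conj z ^ n) 0 ρ = c n * ρ ^ (2 * n) := by
  have hc := hR.continuousOn
  rw [Real.circleAverage_congr_sphere (f₂ := fun z => ∑ j ∈ range N, c j * z ^ j * conj z ^ n
    + z ^ N * R z * conj z ^ n) fun z hz => by
      simp only [e z (sph h0 h1 hz), add_mul, sum_mul]]
  rw [Real.circleAverage_fun_add (ci h0 h1 (by fun_prop)) (ci h0 h1 (by fun_prop)),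
    Real.circleAverage_fun_sum fun j _ => ci h0 h1 (by fun_prop)]
  have t1 : Real.circleAverage (fun z => z ^ N * R z * conj z ^ n) 0 ρ = 0 := by
    obtain ⟨m, rfl⟩ := Nat.exists_eq_add_of_lt hn
    have := avg_hi (H := fun z => z ^ (m + 1) * R z) (by fun_prop) h0 h1 n
    simp only [ne_eq, Nat.add_eq_zero_iff, one_ne_zero, and_false, not_false_eq_true, zero_pow,
      zero_mul] at this
    rw [← this]; congr 1; funext z; ring
  rw [t1, add_zero, sum_eq_single n (fun j _ hj => ?_) (fun h => absurd (mem_range.2 hn) h)]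
  · have := avg_hi (H := fun _ => c n) (by fun_prop) h0 h1 n
    rw [← this]; congr 1; funext z; ring
  · rcases lt_or_gt_of_ne hj with h | h
    · exact avg_lo h0 h1 _ h
    · obtain ⟨m, rfl⟩ := Nat.exists_eq_add_of_lt h
      have := avg_hi (H := fun z => c (n + m + 1) * z ^ (m + 1)) (by fun_prop) h0 h1 n
      simp only [ne_eq, Nat.add_eq_zero_iff, one_ne_zero, and_false, not_false_eq_true, zero_pow,
        mul_zero, zero_mul] at this
      rw [← this]; congr 1; funext z; ring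

lemma avg_re {F : ℂ → ℂ} {c : ℕ → ℂ} {N : ℕ} {R : ℂ → ℂ} (hR : DifferentiableOn ℂ R (ball 0 1))
    (e : ∀ z ∈ ball (0 : ℂ) 1, F z = ∑ j ∈ range N, c j * z ^ j + z ^ N * R z)
    {ρ : ℝ} (h0 : 0 < ρ) (h1 : ρ < 1) :
    Real.circleAverage (fun z => (F z * conj (∑ j ∈ range N, c j * z ^ j)).re) 0 ρ
      = ∑ j ∈ range N, ‖c j‖ ^ 2 * ρ ^ (2 * j) := by
  have hc := hR.continuousOn
  have hF : ContinuousOn F (ball 0 1) :=
    ContinuousOn.congr (f := fun z => ∑ j ∈ range N, c j * z ^ j + z ^ N * R z) (by fun_prop) e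
  have e1 := reCLM.circleAverage_comp_comm
    (f := fun z => F z * conj (∑ j ∈ range N, c j * z ^ j)) (c := 0) (ci h0 h1 (by fun_prop))
  refine Eq.trans e1 ?_
  have e2 : (fun z => F z * conj (∑ j ∈ range N, c j * z ^ j))
      = fun z => ∑ j ∈ range N, conj (c j) • (F z * conj z ^ j) := by
    funext z
    rw [map_sum, mul_sum]
    refine sum_congr rfl fun j _ => ?_
    simp; ring
  rw [e2, Real.circleAverage_fun_sum fun j _ => ci h0 h1 (by fun_prop), map_sum]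
  refine sum_congr rfl fun j hj => ?_
  rw [Real.circleAverage_fun_smul, avg_coef hR e h0 h1 (mem_range.1 hj), smul_eq_mul, ← mul_assoc,
    mul_comm (conj (c j)), mul_conj, normSq_eq_norm_sq]
  simp only [reCLM_apply, ← ofReal_pow, ← ofReal_mul, ofReal_re]

lemma divide {F G : ℂ → ℂ} (hF : DifferentiableOn ℂ F (ball 0 1))
    (hG : DifferentiableOn ℂ G (ball 0 1)) (h : ∀ z ∈ ball (0 : ℂ) 1, ‖F z‖ ≤ ‖G z‖) :
    ∃ φ : ℂ → ℂ, DifferentiableOn ℂ φ (ball 0 1) ∧
      ∀ z ∈ ball (0 : ℂ) 1, ‖φ z‖ ≤ 1 ∧ F z = φ z * G z := by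
  by_cases h0 : EqOn G 0 (ball 0 1)
  · refine ⟨0, differentiableOn_const _, fun z hz => ⟨by simp, ?_⟩⟩
    have := h z hz
    rw [h0 hz] at this
    simpa using this
  have hq : ∀ z ∈ ball (0 : ℂ) 1, ‖F z / G z‖ ≤ 1 := fun z hz => by
    rw [norm_div]; exact div_le_one_of_le₀ (h z hz) (norm_nonneg _)
  have key : ∀ c ∈ ball (0 : ℂ) 1, DifferentiableAt ℂ
      (fun z => limUnder (𝓝[≠] z) (fun w => F w / G w)) c ∧
      ∀ᶠ w in 𝓝[≠] c, w ∈ ball (0 : ℂ) 1 ∧ G w ≠ 0 ∧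
        limUnder (𝓝[≠] w) (fun w => F w / G w) = F w / G w := by
    intro c hc
    have hne : ∀ᶠ w in 𝓝[≠] c, G w ≠ 0 := by
      by_contra hcon
      exact h0 ((hG.analyticOnNhd isOpen_ball).eqOn_zero_of_preconnected_of_frequently_eq_zero
        (convex_ball _ _).isPreconnected hc (by simpa using hcon))
    obtain ⟨s, hs1, hs2, hs3⟩ := _root_.eventually_nhds_iff.1
      ((eventually_nhdsWithin_iff.1 hne).and (isOpen_ball.mem_nhds hc))
    have hd : DifferentiableOn ℂ (fun w => F w / G w) (s \ {c}) :=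
      (hF.mono fun w hw => (hs1 w hw.1).2).div (hG.mono fun w hw => (hs1 w hw.1).2)
        fun w hw => (hs1 w hw.1).1 hw.2
    have hl : ∀ w ∈ s \ {c}, limUnder (𝓝[≠] w) (fun w => F w / G w) = F w / G w := fun w hw =>
      (((hd.differentiableAt ((hs2.sdiff isClosed_singleton).mem_nhds hw)).continuousAt.tendsto
        ).mono_left nhdsWithin_le_nhds).limUnder_eq
    have hu := differentiableOn_update_limUnder_of_bddAbove (hs2.mem_nhds hs3) hd
      ⟨1, by rintro _ ⟨w, hw, rfl⟩; exact hq w (hs1 w hw.1).2⟩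
    constructor
    · refine (hu.differentiableAt (hs2.mem_nhds hs3)).congr_of_eventuallyEq ?_
      filter_upwards [hs2.mem_nhds hs3] with w hw
      rcases eq_or_ne w c with rfl | hwc
      · simp
      · rw [Function.update_of_ne hwc, hl w ⟨hw, hwc⟩]
    · filter_upwards [self_mem_nhdsWithin, mem_nhdsWithin_of_mem_nhds (hs2.mem_nhds hs3)]
        with w hw hws using ⟨(hs1 w hws).2, (hs1 w hws).1 hw, hl w ⟨hws, hw⟩⟩
  refine ⟨_, fun c hc => (key c hc).1.differentiableWithinAt, fun c hc => ⟨?_, ?_⟩⟩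
  · refine le_of_tendsto (((key c hc).1.continuousAt.norm.tendsto).mono_left
      (nhdsWithin_le_nhds (s := {c}ᶜ))) ?_
    filter_upwards [(key c hc).2] with w hw
    rw [hw.2.2]; exact hq w hw.1
  · have t1 := (hF.differentiableAt (isOpen_ball.mem_nhds hc)).continuousAt.tendsto.mono_left
      (nhdsWithin_le_nhds (s := {c}ᶜ))
    have t2 := ((key c hc).1.continuousAt.mul
      (hG.differentiableAt (isOpen_ball.mem_nhds hc)).continuousAt).tendsto.mono_left
      (nhdsWithin_le_nhds (s := {c}ᶜ))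
    refine tendsto_nhds_unique_of_eventuallyEq t1 t2 ?_
    filter_upwards [(key c hc).2] with w hw
    simp only [Pi.mul_apply, hw.2.2]
    rw [div_mul_cancel₀ _ hw.2.1]

/-- Rogosinski-type domination of partial sums. -/
lemma dom {F G : ℂ → ℂ} {c d : ℕ → ℂ} (hF : Cf F c) (hG : Cf G d)
    (h : ∀ z ∈ ball (0 : ℂ) 1, ‖F z‖ ≤ ‖G z‖) (N : ℕ) :
    ∑ j ∈ range N, ‖c j‖ ^ 2 ≤ ∑ j ∈ range N, ‖d j‖ ^ 2 := by
  obtain ⟨φ, hφ, hφ'⟩ := divide hF.diff hG.diff h
  obtain ⟨R, hR, eR⟩ := hF N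
  obtain ⟨S, hS, eS⟩ := hG N
  have hφc := hφ.continuousOn
  have key : ∀ ρ ∈ Ioo (0 : ℝ) 1, ∑ j ∈ range N, ‖c j‖ ^ 2 * ρ ^ (2 * j)
      ≤ ∑ j ∈ range N, ‖d j‖ ^ 2 * ρ ^ (2 * j) := by
    rintro ρ ⟨h0, h1⟩
    have a1 := avg_re (F := fun z => φ z * ∑ j ∈ range N, d j * z ^ j) (c := c) (N := N)
      (R := fun z => R z - φ z * S z) (hR.sub (hφ.mul hS)) (fun z hz => by
        have := (hφ' z hz).2
        rw [eR z hz, eS z hz] at this
        linear_combination -this) h0 h1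
    have a2 := avg_re (F := fun z => ∑ j ∈ range N, c j * z ^ j) (c := c) (N := N)
      (R := fun _ => 0) (differentiableOn_const _) (fun z _ => by simp) h0 h1
    have a3 := avg_re (F := fun z => ∑ j ∈ range N, d j * z ^ j) (c := d) (N := N)
      (R := fun _ => 0) (differentiableOn_const _) (fun z _ => by simp) h0 h1
    have m := Real.circleAverage_mono (c := 0) (R := ρ)
      (f₁ := fun z => (φ z * (∑ j ∈ range N, d j * z ^ j) * conj (∑ j ∈ range N, c j * z ^ j)).re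
        + (φ z * (∑ j ∈ range N, d j * z ^ j) * conj (∑ j ∈ range N, c j * z ^ j)).re)
      (f₂ := fun z => ((∑ j ∈ range N, c j * z ^ j) * conj (∑ j ∈ range N, c j * z ^ j)).re
        + ((∑ j ∈ range N, d j * z ^ j) * conj (∑ j ∈ range N, d j * z ^ j)).re)
      (ci h0 h1 (by fun_prop)) (ci h0 h1 (by fun_prop)) (fun z hz => by
        set p := ∑ j ∈ range N, d j * z ^ j
        set q := ∑ j ∈ range N, c j * z ^ j
        have b1 := re_le_norm (φ z * p * conj q)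
        rw [norm_mul, norm_mul, Complex.norm_conj] at b1
        have b2 : ‖φ z‖ * ‖p‖ * ‖q‖ ≤ 1 * ‖p‖ * ‖q‖ := by
          gcongr; exact (hφ' z (sph h0 h1 hz)).1
        simp only [mul_conj, ofReal_re, normSq_eq_norm_sq]
        nlinarith [sq_nonneg (‖p‖ - ‖q‖)])
    rw [Real.circleAverage_fun_add (ci h0 h1 (by fun_prop)) (ci h0 h1 (by fun_prop)),
      Real.circleAverage_fun_add (ci h0 h1 (by fun_prop)) (ci h0 h1 (by fun_prop)),
      a1, a2, a3] at m
    linarith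
  have cl : ∀ e : ℕ → ℂ, Tendsto (fun ρ : ℝ => ∑ j ∈ range N, ‖e j‖ ^ 2 * ρ ^ (2 * j)) (𝓝[<] 1)
      (𝓝 (∑ j ∈ range N, ‖e j‖ ^ 2)) := fun e => by
    have : Continuous fun ρ : ℝ => ∑ j ∈ range N, ‖e j‖ ^ 2 * ρ ^ (2 * j) := by fun_prop
    simpa using (this.tendsto 1).mono_left (nhdsWithin_le_nhds (s := Iio 1))
  refine le_of_tendsto_of_tendsto (cl c) (cl d) ?_
  filter_upwards [Ioo_mem_nhdsLT one_pos] with ρ hρ using key ρ hρ

lemma abel {x w : ℕ → ℝ} (hx : ∀ N, 0 ≤ ∑ j ∈ range N, x j) (hw : ∀ n, w (n + 1) ≤ w n)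
    (hw0 : ∀ n, 0 ≤ w n) (N : ℕ) : 0 ≤ ∑ j ∈ range N, w j * x j := by
  have : ∀ N, w N * ∑ j ∈ range N, x j ≤ ∑ j ∈ range N, w j * x j := by
    intro N
    induction N with
    | zero => simp
    | succ N ih =>
      have h1 := hx (N + 1)
      have h2 := mul_le_mul_of_nonneg_right (hw N) h1
      rw [sum_range_succ] at h2 ⊢
      rw [sum_range_succ]
      nlinarith
  exact (mul_nonneg (hw0 N) (hx N)).trans (this N)

end Pool.Agent.H.MP_8fe0b8_an
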